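import Mathlib
import Pool.Agent.W851.Had.Schn

/-!
# Sums of a set of positive lower density

If `A` contains `0` and `1` and `|A ∩ [1,n]| ≥ α n` for all large `n`, then every large integer is a sum
of `H(α)` elements of `A`, where `H` depends on `α` only.
-/

set_option autoImplicit false

namespace Pool.Agent.H269.WG

open Finset Pool.Agent.W851.Had

/-- pairs at distance `g` -/
def Two (B : ℕ → Prop) (g x : ℕ) : Prop := B x ∧ B (x + g)

theorem cnt_eq (S : ℕ → Prop) [DecidablePred S] (n : ℕ) : cnt S n = ((Icc 1 n).filter S).card := by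
  unfold cnt
  congr

open Classical in
theorem cnt_shift_le (B C : ℕ → Prop) (b n : ℕ) (h : ∀ x, B x → C (x + b)) :
    cnt B (n - b) ≤ cnt C n := by
  unfold cnt
  refine (card_le_card_of_injOn (fun x => x + b) ?_ ?_)
  · intro x hx
    rw [mem_coe, mem_filter, mem_Icc] at hx ⊢
    have h1 := hx.1
    exact ⟨⟨by show 1 ≤ x + b; omega, by show x + b ≤ n; omega⟩, h x hx.2⟩
  · intro x _ y _ hxy
    simpa using hxy

theorem cnt_sub (B : ℕ → Prop) (n b : ℕ) : cnt B n ≤ cnt B (n - b) + b := by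
  classical
  unfold cnt
  have : (Icc 1 n).filter B ⊆ (Icc 1 (n - b)).filter B ∪ Ioc (n - b) n := by
    intro x hx
    rw [mem_filter, mem_Icc] at hx
    rw [mem_union, mem_filter, mem_Icc, mem_Ioc]
    by_cases h : x ≤ n - b
    · left; exact ⟨⟨hx.1.1, h⟩, hx.2⟩
    · right; omega
  calc ((Icc 1 n).filter B).card ≤ _ := card_le_card this
    _ ≤ _ := card_union_le _ _
    _ ≤ _ := by
      rw [Nat.card_Ioc]
      omega

/-- inclusion-exclusion -/
theorem cnt_inter (B C D : ℕ → Prop) (n : ℕ) (hB : ∀ x, B x → D x) (hC : ∀ x, C x → D x) :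
    cnt B n + cnt C n ≤ cnt D n + cnt (fun x => B x ∧ C x) n := by
  classical
  rw [cnt_eq B, cnt_eq C, cnt_eq D, cnt_eq (fun x => B x ∧ C x)]
  have h1 : (Icc 1 n).filter B ∪ (Icc 1 n).filter C ⊆ (Icc 1 n).filter D := by
    intro x hx
    rw [mem_union, mem_filter, mem_filter] at hx
    rw [mem_filter]
    rcases hx with h | h
    · exact ⟨h.1, hB x h.2⟩
    · exact ⟨h.1, hC x h.2⟩
  have h2 : (Icc 1 n).filter B ∩ (Icc 1 n).filter C = (Icc 1 n).filter (fun x => B x ∧ C x) := by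
    ext x
    simp only [mem_inter, mem_filter]
    tauto
  have h3 := card_union_add_card_inter ((Icc 1 n).filter B) ((Icc 1 n).filter C)
  have h4 := card_le_card h1
  rw [h2] at h3
  omega

/-- many pairs at distance `g`, if there is one pair at this distance -/
theorem many_pairs (B : ℕ → Prop) (β : ℝ) (hβ : 0 < β) (n₀ : ℕ)
    (hd : ∀ n, n₀ ≤ n → β * n ≤ cnt B n) (g b : ℕ) (hb : B b) (hb' : B (b + g)) :
    ∃ n₁, ∀ n, n₁ ≤ n → (cnt (Sum2 B B) n : ℝ) < 1.4 * β * n → 0.55 * (cnt B n : ℝ) ≤ cnt (Two B g) n := by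
  -- x ↦ x + b + g and x ↦ x + g + b
  obtain ⟨n₂, hn₂⟩ := exists_nat_gt (100 * ((b + g : ℕ) + 1 : ℝ) / β)
  refine ⟨n₀ + n₂, fun n hn hs => ?_⟩
  have hd' := hd n (by omega)
  have hnn : (n₂ : ℝ) ≤ n := by exact_mod_cast (by omega : n₂ ≤ n)
  have h100 : 100 * ((b + g : ℕ) + 1 : ℝ) < β * n := by
    rw [div_lt_iff₀ hβ] at hn₂
    nlinarith
  -- the two shifted copies
  have e1 : cnt (fun x => ∃ y, B y ∧ x = y + (b + g)) n + cnt (fun x => ∃ y, B y ∧ x = y + b) n ≤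
      cnt (Sum2 B B) n + cnt (fun x => (∃ y, B y ∧ x = y + (b + g)) ∧ (∃ y, B y ∧ x = y + b)) n := by
    apply cnt_inter
    · rintro x ⟨y, hy, rfl⟩
      exact ⟨y, b + g, hy, hb', rfl⟩
    · rintro x ⟨y, hy, rfl⟩
      exact ⟨y, b, hy, hb, rfl⟩
  have e2 : cnt B (n - (b + g)) ≤ cnt (fun x => ∃ y, B y ∧ x = y + (b + g)) n :=
    cnt_shift_le B _ (b + g) n (fun x hx => ⟨x, hx, rfl⟩)
  have e3 : cnt B (n - b) ≤ cnt (fun x => ∃ y, B y ∧ x = y + b) n :=
    cnt_shift_le B _ b n (fun x hx => ⟨x, hx, rfl⟩)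
  have e4 := cnt_sub B n (b + g)
  have e5 := cnt_sub B n b
  -- the intersection injects into the pairs
  have e6 : cnt (fun x => (∃ y, B y ∧ x = y + (b + g)) ∧ (∃ y, B y ∧ x = y + b)) n ≤
      cnt (Two B g) n + (b + g + 1) := by
    classical
    rw [cnt_eq (fun x => (∃ y, B y ∧ x = y + (b + g)) ∧ (∃ y, B y ∧ x = y + b)), cnt_eq (Two B g)]
    have : (Icc 1 n).filter (fun x => (∃ y, B y ∧ x = y + (b + g)) ∧ (∃ y, B y ∧ x = y + b)) ⊆
        ((Icc 1 n).filter (Two B g)).image (fun y => y + (b + g)) ∪ Icc 0 (b + g) := by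
      intro x hx
      rw [mem_filter, mem_Icc] at hx
      obtain ⟨hx1, ⟨y, hy, hxy⟩, ⟨z, hz, hxz⟩⟩ := hx
      rw [mem_union, mem_image, mem_Icc]
      by_cases h0 : y = 0
      · right; omega
      · left
        refine ⟨y, ?_, hxy.symm⟩
        rw [mem_filter, mem_Icc]
        refine ⟨by omega, hy, ?_⟩
        have : y + g = z := by omega
        rw [this]; exact hz
    have q1 := card_le_card this
    have q2 := card_union_le (((Icc 1 n).filter (Two B g)).image (fun y => y + (b + g))) (Icc 0 (b + g))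
    have q3 := card_image_le (s := (Icc 1 n).filter (Two B g)) (f := fun y => y + (b + g))
    rw [Nat.card_Icc] at q2
    omega
  have f1 : 2 * cnt B n ≤ cnt (Sum2 B B) n + cnt (Two B g) n + 3 * (b + g) + 1 := by omega
  have f2 : 2 * (cnt B n : ℝ) ≤ cnt (Sum2 B B) n + cnt (Two B g) n + 3 * ((b + g : ℕ) : ℝ) + 1 := by
    exact_mod_cast f1
  nlinarith

/-- every distance occurs -/
theorem all_distances (B : ℕ → Prop) (β : ℝ) (hβ : 0 < β) (n₀ : ℕ)
    (hd : ∀ n, n₀ ≤ n → β * n ≤ cnt B n) (h0 : B 0) (h1 : B 1)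
    (hs : ∀ m, ∃ n, m ≤ n ∧ (cnt (Sum2 B B) n : ℝ) < 1.4 * β * n) (g : ℕ) :
    ∃ b, B b ∧ B (b + g) := by
  induction g with
  | zero => exact ⟨0, h0, h0⟩
  | succ g ih =>
    obtain ⟨b, hb, hb'⟩ := ih
    obtain ⟨n₁, hn₁⟩ := many_pairs B β hβ n₀ hd g b hb hb'
    obtain ⟨n₂, hn₂⟩ := many_pairs B β hβ n₀ hd 1 0 h0 h1
    obtain ⟨n₃, hn₃⟩ := exists_nat_gt (100 / β)
    obtain ⟨n, hn, hns⟩ := hs (n₀ + n₁ + n₂ + n₃)
    have k1 := hn₁ n (by omega) hns
    have k2 := hn₂ n (by omega) hns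
    have k3 := hd n (by omega)
    have k4 : (n₃ : ℝ) ≤ n := by exact_mod_cast (by omega : n₃ ≤ n)
    rw [div_lt_iff₀ hβ] at hn₃
    have k5 : 100 < β * n := by nlinarith
    -- x with `B x`, `B (x+g)`, and y with `B y`, `B (y+1)`; want x = y + 1
    have k6 := cnt_shift_le (Two B 1) (fun x => B x ∧ ∃ y, x = y + 1 ∧ B y) 1 n
      (fun x hx => ⟨hx.2, x, rfl, hx.1⟩)
    have k7 := cnt_sub (Two B 1) n 1
    have k8 := cnt_inter (Two B g) (fun x => B x ∧ ∃ y, x = y + 1 ∧ B y) B n (fun x hx => hx.1)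
      (fun x hx => hx.1)
    have k9 : 0 < cnt (fun x => Two B g x ∧ (B x ∧ ∃ y, x = y + 1 ∧ B y)) n := by
      by_contra hcon
      have h6 : cnt (Two B 1) n ≤ cnt (fun x => B x ∧ ∃ y, x = y + 1 ∧ B y) n + 1 := by omega
      have h7 : cnt (Two B g) n + cnt (Two B 1) n ≤ cnt B n + 1 := by omega
      have h8 : (cnt (Two B g) n : ℝ) + cnt (Two B 1) n ≤ cnt B n + 1 := by exact_mod_cast h7
      nlinarith
    classical
    rw [cnt_eq (fun x => Two B g x ∧ (B x ∧ ∃ y, x = y + 1 ∧ B y)), card_pos] at k9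
    obtain ⟨x, hx⟩ := k9
    rw [mem_filter] at hx
    obtain ⟨_, ⟨_, hx2⟩, _, y, rfl, hy⟩ := hx
    exact ⟨y, hy, by rw [show y + (g + 1) = y + 1 + g by ring]; exact hx2⟩

/-- long intervals in the sumset -/
theorem long_intervals (B : ℕ → Prop) (β : ℝ) (hβ : 0 < β) (n₀ : ℕ)
    (hd : ∀ n, n₀ ≤ n → β * n ≤ cnt B n) (h0 : B 0) (h1 : B 1)
    (hs : ∀ m, ∃ n, m ≤ n ∧ (cnt (Sum2 B B) n : ℝ) < 1.4 * β * n) (L : ℕ) :
    ∃ v, ∀ j, j ≤ L → Sum2 B B (v + j) := by
  classical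
  obtain ⟨M, hM⟩ : ∃ M : ℕ, M = 20 * (L + 1) := ⟨_, rfl⟩
  have hpairs : ∀ g : ℕ, ∃ n₁, ∀ n, n₁ ≤ n → (cnt (Sum2 B B) n : ℝ) < 1.4 * β * n →
      0.55 * (cnt B n : ℝ) ≤ cnt (Two B g) n := by
    intro g
    obtain ⟨b, hb, hb'⟩ := all_distances B β hβ n₀ hd h0 h1 hs g
    exact many_pairs B β hβ n₀ hd g b hb hb'
  choose f hf using hpairs
  obtain ⟨n₃, hn₃⟩ := exists_nat_gt (1 / β)
  obtain ⟨n, hn, hns⟩ := hs (n₀ + n₃ + ∑ g ∈ Icc 1 M, f g)
  have hcpos : 0 < (cnt B n : ℝ) := by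
    have k3 := hd n (by omega)
    have k4 : (n₃ : ℝ) ≤ n := by exact_mod_cast (by omega : n₃ ≤ n)
    rw [div_lt_iff₀ hβ] at hn₃
    nlinarith
  have hall : ∀ g ∈ Icc 1 M, 0.55 * (cnt B n : ℝ) ≤ cnt (Two B g) n := by
    intro g hg
    apply hf g n _ hns
    have := single_le_sum (f := f) (fun i _ => Nat.zero_le _) hg
    omega
  -- double counting
  have hdc : ∑ g ∈ Icc 1 M, cnt (Two B g) n =
      ∑ x ∈ (Icc 1 n).filter B, ((Icc 1 M).filter (fun g => B (x + g))).card := by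
    simp only [cnt_eq (Two B _), card_filter, Two]
    rw [sum_comm]
    rw [sum_filter]
    refine sum_congr rfl fun x _ => ?_
    by_cases hx : B x
    · simp [hx]
    · simp [hx]
  have hbig : ∃ x, 0.55 * (M : ℝ) ≤ (((Icc 1 M).filter (fun g => B (x + g))).card : ℝ) := by
    by_contra hcon
    push Not at hcon
    have h1 : (0.55 * (cnt B n : ℝ)) * M ≤ ∑ g ∈ Icc 1 M, (cnt (Two B g) n : ℝ) := by
      calc (0.55 * (cnt B n : ℝ)) * M = ∑ g ∈ Icc 1 M, 0.55 * (cnt B n : ℝ) := by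
            rw [sum_const, Nat.card_Icc, nsmul_eq_mul]
            rw [Nat.add_sub_cancel]
            ring
        _ ≤ _ := sum_le_sum hall
    have h2 : ∑ g ∈ Icc 1 M, (cnt (Two B g) n : ℝ) < (cnt B n : ℝ) * (0.55 * M) := by
      have : ∑ g ∈ Icc 1 M, (cnt (Two B g) n : ℝ) =
          ∑ x ∈ (Icc 1 n).filter B, (((Icc 1 M).filter (fun g => B (x + g))).card : ℝ) := by
        exact_mod_cast hdc
      rw [this]
      have hc : cnt B n = ((Icc 1 n).filter B).card := cnt_eq B n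
      rw [hc, ← nsmul_eq_mul, ← sum_const]
      apply sum_lt_sum_of_nonempty
      · rw [← card_pos, ← hc]
        exact_mod_cast hcpos
      · intro x _
        exact hcon x
    nlinarith
  obtain ⟨x, hx⟩ := hbig
  refine ⟨2 * x + M + 1, fun s hs' => ?_⟩
  obtain ⟨W, hW⟩ : ∃ W : Finset ℕ, W = (Icc 1 M).filter (fun g => B (x + g)) := ⟨_, rfl⟩
  rw [← hW] at hx
  have hWM : ∀ w ∈ W, 1 ≤ w ∧ w ≤ M ∧ B (x + w) := by
    intro w hw
    rw [hW, mem_filter, mem_Icc] at hw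
    exact ⟨hw.1.1, hw.1.2, hw.2⟩
  obtain ⟨V, hV⟩ : ∃ V : Finset ℕ, V = W.image (fun w => M + 1 + s - w) := ⟨_, rfl⟩
  have hVc : V.card = W.card := by
    rw [hV]
    apply card_image_of_injOn
    intro a ha b hb hab
    have := hWM a ha
    have := hWM b hb
    simp only at hab
    omega
  have hU : (W ∪ V).card ≤ M + s := by
    have : W ∪ V ⊆ Icc 1 (M + s) := by
      intro w hw
      rw [mem_Icc]
      rcases mem_union.1 hw with h | h
      · have := hWM w h; omega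
      · rw [hV, mem_image] at h
        obtain ⟨a, ha, rfl⟩ := h
        have := hWM a ha
        omega
    calc (W ∪ V).card ≤ (Icc 1 (M + s)).card := card_le_card this
      _ = M + s := by rw [Nat.card_Icc]; omega
  have hint : (W ∩ V).Nonempty := by
    rw [← card_pos]
    have h5 := card_union_add_card_inter W V
    have h6 : M + s < 2 * W.card := by
      have h7 : ((M + s : ℕ) : ℝ) < ((2 * W.card : ℕ) : ℝ) := by
        have h8 : (s : ℝ) ≤ L := by exact_mod_cast hs'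
        have h9 : (M : ℝ) = 20 * (L + 1) := by rw [hM]; push_cast; ring
        push_cast
        nlinarith
      exact_mod_cast h7
    omega
  obtain ⟨w, hw⟩ := hint
  rw [mem_inter, hV, mem_image] at hw
  obtain ⟨hw1, a, ha, haw⟩ := hw
  have q1 := hWM w hw1
  have q2 := hWM a ha
  exact ⟨x + w, x + a, q1.2.2, q2.2.2, by omega⟩

end Pool.Agent.H269.WG
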