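import Mathlib
import Pool.Agent.H269.WG.Sums

/-!
# Sets of positive lower density containing 0 and 1 are asymptotic bases, with uniform order
-/

set_option autoImplicit false

namespace Pool.Agent.H269.WG

open Finset Pool.Agent.W851.Had

theorem SumH_mono {A : ℕ → Prop} (h0 : A 0) {p q n : ℕ} (hpq : p ≤ q) (h : SumH A p n) : SumH A q n := by
  obtain ⟨r, rfl⟩ := Nat.exists_eq_add_of_le hpq
  exact SumH_add A p r n ⟨n, 0, h, SumH_zero A h0 r, by ring⟩

theorem SumH_one {A : ℕ → Prop} {n : ℕ} (h : A n) : SumH A 1 n :=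
  ⟨[n], rfl, by simpa using h, by simp⟩

theorem split_small (A : ℕ → Prop) (h0 : A 0) (n₀ : ℕ) (l : List ℕ)
    (hl : ∀ y ∈ l, A y ∨ y ≤ n₀) : ∃ a r, SumH A l.length a ∧ r ≤ l.length * n₀ ∧ l.sum = a + r := by
  induction l with
  | nil => exact ⟨0, 0, SumH_zero A h0 0, by simp, by simp⟩
  | cons y l ih =>
    obtain ⟨a, r, h1, h2, h3⟩ := ih (fun z hz => hl z (List.mem_cons_of_mem _ hz))
    rw [List.sum_cons, List.length_cons]
    rcases hl y List.mem_cons_self with hy | hy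
    · refine ⟨a + y, r, ?_, ?_, by omega⟩
      · exact SumH_succ A l.length (a + y) ⟨a, y, h1, hy, rfl⟩
      · nlinarith
    · refine ⟨a, r + y, SumH_mono h0 (Nat.le_succ _) h1, ?_, by omega⟩
      nlinarith

/-- **Uniform order.** -/
theorem uniform_order (α : ℝ) (hα : 0 < α) : ∃ H : ℕ, ∀ A : ℕ → Prop, A 0 → A 1 →
    (∃ n₀ : ℕ, ∀ n, n₀ ≤ n → α * n ≤ cnt A n) → ∃ n₁ : ℕ, ∀ n, n₁ ≤ n → SumH A H n := by
  obtain ⟨I, hI⟩ : ∃ I : ℕ, 1 / α < (1.4 : ℝ) ^ I := pow_unbounded_of_one_lt _ (by norm_num)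
  obtain ⟨h, hh⟩ : ∃ h : ℕ, h = ⌈1 / α⌉₊ := ⟨_, rfl⟩
  refine ⟨(h + h) + 2 ^ I, fun A h0 h1 ⟨n₀, hd⟩ => ?_⟩
  have hα1 : α ≤ 1 := by
    have e1 := hd (n₀ + 1) (by omega)
    have e2 := cnt_le A (n₀ + 1)
    have e3 : (cnt A (n₀ + 1) : ℝ) ≤ ((n₀ + 1 : ℕ) : ℝ) := by exact_mod_cast e2
    have e4 : (0 : ℝ) < ((n₀ + 1 : ℕ) : ℝ) := by positivity
    nlinarith
  -- the small doubling index
  have hB0 : ∀ i, SumH A (2 ^ i) 0 := fun i => SumH_zero A h0 _
  have hB1 : ∀ i, SumH A (2 ^ i) 1 := fun i => SumH_mono h0 Nat.one_le_two_pow (SumH_one h1)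
  have hidx : ∃ i, i < I ∧ (∃ m : ℕ, ∀ n : ℕ, m ≤ n → (1.4 ^ i * α) * n ≤ cnt (SumH A (2 ^ i)) n) ∧
      ∀ m : ℕ, ∃ n : ℕ, m ≤ n ∧ (cnt (SumH A (2 ^ (i + 1))) n : ℝ) < (1.4 ^ (i + 1) * α) * n := by
    by_contra hcon
    push Not at hcon
    have hall : ∀ i, i ≤ I → ∃ m : ℕ, ∀ n : ℕ, m ≤ n → (1.4 ^ i * α) * (n : ℝ) ≤ cnt (SumH A (2 ^ i)) n := by
      intro i
      induction i with
      | zero =>
        intro _
        refine ⟨n₀, fun n hn => ?_⟩
        have e1 := hd n hn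
        have e2 := cnt_mono (S := A) (S' := SumH A (2 ^ 0)) (fun m hm => SumH_one hm) n
        have e3 : (cnt A n : ℝ) ≤ cnt (SumH A (2 ^ 0)) n := by exact_mod_cast e2
        rw [pow_zero, one_mul]
        linarith
      | succ i ih =>
        intro hi
        obtain ⟨m, hm⟩ := ih (by omega)
        exact hcon i (by omega) ⟨m, hm⟩
    obtain ⟨m, hm⟩ := hall I le_rfl
    have e1 := hm (m + 1) (by omega)
    have e2 : (cnt (SumH A (2 ^ I)) (m + 1) : ℝ) ≤ ((m + 1 : ℕ) : ℝ) := by exact_mod_cast cnt_le _ _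
    have e3 : (0 : ℝ) < ((m + 1 : ℕ) : ℝ) := by positivity
    have e4 : 1 < (1.4 : ℝ) ^ I * α := by
      rw [div_lt_iff₀ hα] at hI
      exact hI
    nlinarith
  obtain ⟨i, hiI, ⟨m, hm⟩, hs⟩ := hidx
  have hlong : ∀ L, ∃ v, ∀ j, j ≤ L → SumH A (2 ^ I) (v + j) := by
    intro L
    obtain ⟨v, hv⟩ := long_intervals (SumH A (2 ^ i)) (1.4 ^ i * α) (by positivity) m hm (hB0 i) (hB1 i)
      (fun M => by
        obtain ⟨n, hn, hlt⟩ := hs M
        refine ⟨n, hn, lt_of_le_of_lt ?_ (lt_of_lt_of_eq hlt (by rw [pow_succ]; ring))⟩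
        have : cnt (Sum2 (SumH A (2 ^ i)) (SumH A (2 ^ i))) n ≤ cnt (SumH A (2 ^ (i + 1))) n := by
          apply cnt_mono
          intro x hx
          have := SumH_add A _ _ x hx
          rwa [← two_mul, ← pow_succ'] at this
        exact_mod_cast this) L
    refine ⟨v, fun j hj => ?_⟩
    have e1 := SumH_add A _ _ _ (hv j hj)
    refine SumH_mono h0 ?_ e1
    calc 2 ^ i + 2 ^ i = 2 ^ (i + 1) := by ring
      _ ≤ 2 ^ I := Nat.pow_le_pow_right (by norm_num) hiI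
  -- bounded gaps
  have hgap : ∀ n, ∃ a r, SumH A (h + h) a ∧ r ≤ (h + h) * n₀ ∧ n = a + r := by
    intro n
    have hdens : ∀ m ≤ n, α * m ≤ cnt (fun x => A x ∨ x ≤ n₀) m := by
      intro m _
      rcases le_total n₀ m with hc | hc
      · have e1 := hd m hc
        have e2 := cnt_mono (S := A) (S' := fun x => A x ∨ x ≤ n₀) (fun x hx => Or.inl hx) m
        have e3 : (cnt A m : ℝ) ≤ cnt (fun x => A x ∨ x ≤ n₀) m := by exact_mod_cast e2
        linarith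
      · have e2 : m ≤ cnt (fun x => A x ∨ x ≤ n₀) m := by
          classical
          rw [cnt_eq]
          have : Icc 1 m ⊆ (Icc 1 m).filter (fun x => A x ∨ x ≤ n₀) := by
            intro x hx
            rw [mem_filter]
            rw [mem_Icc] at hx
            exact ⟨mem_Icc.2 hx, Or.inr (by omega)⟩
          have := card_le_card this
          rw [Nat.card_Icc] at this
          omega
        have e3 : (m : ℝ) ≤ cnt (fun x => A x ∨ x ≤ n₀) m := by exact_mod_cast e2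
        have e4 : (0 : ℝ) ≤ m := Nat.cast_nonneg m
        nlinarith
    have hδh : 1 ≤ α * h := by
      have : 1 / α ≤ h := by rw [hh]; exact Nat.le_ceil _
      rw [div_le_iff₀ hα] at this
      linarith
    obtain ⟨l, hl1, hl2, hl3⟩ := schn (fun x => A x ∨ x ≤ n₀) n h α hα1 hδh (Or.inl h0) hdens n le_rfl
    obtain ⟨a, r, q1, q2, q3⟩ := split_small A h0 n₀ l hl2
    rw [hl1] at q1 q2
    exact ⟨a, r, q1, q2, by rw [← hl3, q3]⟩
  obtain ⟨v, hv⟩ := hlong ((h + h) * n₀)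
  refine ⟨v, fun n hn => ?_⟩
  obtain ⟨a, r, q1, q2, q3⟩ := hgap (n - v)
  exact SumH_add A _ _ n ⟨a, v + r, q1, hv r q2, by omega⟩

end Pool.Agent.H269.WG
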