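import Mathlib

/-!
# Approximation by sums of `k`-th powers (greedy algorithm)
-/

set_option autoImplicit false

namespace Pool.Agent.H269.WG

open Finset

/-- `n` is a sum of `s` `k`-th powers of nonnegative integers -/
def IsSumPow (k s n : ℕ) : Prop := ∃ x : Fin s → ℕ, n = ∑ i, x i ^ k

theorem IsSumPow.add {k s t a b : ℕ} (ha : IsSumPow k s a) (hb : IsSumPow k t b) :
    IsSumPow k (s + t) (a + b) := by
  obtain ⟨x, rfl⟩ := ha
  obtain ⟨y, rfl⟩ := hb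
  refine ⟨Fin.append x y, ?_⟩
  rw [Fin.sum_univ_add]
  simp

theorem isSumPow_zero {k : ℕ} (hk : 1 ≤ k) (s : ℕ) : IsSumPow k s 0 :=
  ⟨fun _ => 0, by simp [show k ≠ 0 by omega]⟩

theorem isSumPow_pow (k x : ℕ) : IsSumPow k 1 (x ^ k) := ⟨fun _ => x, by simp⟩

theorem IsSumPow.mono {k s t n : ℕ} (hk : 1 ≤ k) (h : s ≤ t) (hn : IsSumPow k s n) : IsSumPow k t n := by
  obtain ⟨r, rfl⟩ := Nat.exists_eq_add_of_le h
  have := hn.add (isSumPow_zero hk r)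
  simpa using this

theorem succ_pow_le (x : ℕ) (hx : 1 ≤ x) (j : ℕ) :
    (x + 1) ^ (j + 1) + x ^ j ≤ x ^ (j + 1) + 2 ^ (j + 1) * x ^ j := by
  induction j with
  | zero => simp
  | succ j ih =>
    obtain ⟨y, rfl⟩ : ∃ y, x = y + 1 := ⟨x - 1, by omega⟩
    obtain ⟨p, hp⟩ : ∃ p, 2 ^ (j + 1) = p + 1 := ⟨2 ^ (j + 1) - 1, by
      have := Nat.one_le_two_pow (n := j + 1); omega⟩
    have e1 : (y + 1 + 1) ^ (j + 1 + 1) = (y + 1 + 1) ^ (j + 1) * (y + 1 + 1) := pow_succ _ _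
    have e2 : (y + 1) ^ (j + 1 + 1) = (y + 1) ^ j * (y + 1) * (y + 1) := by ring
    have e3 : (2 : ℕ) ^ (j + 1 + 1) = 2 * (p + 1) := by rw [pow_succ, hp]; ring
    have e4 : (y + 1) ^ (j + 1) = (y + 1) ^ j * (y + 1) := pow_succ _ _
    rw [e4, hp] at ih
    rw [e1, e2, e3, e4]
    obtain ⟨Q, hQ⟩ : ∃ Q, Q = (y + 1) ^ j := ⟨_, rfl⟩
    obtain ⟨R, hR⟩ : ∃ R, R = (y + 1 + 1) ^ (j + 1) := ⟨_, rfl⟩
    rw [← hQ, ← hR] at ih ⊢
    have h1 := Nat.mul_le_mul_right (y + 1 + 1) ih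
    have h2 : 0 ≤ p * Q * y := Nat.zero_le _
    nlinarith

/-- one greedy step -/
theorem greedy_step (k : ℕ) (hk : 1 ≤ k) (r : ℕ) : ∃ x : ℕ, x ^ k ≤ r ∧
    (r : ℝ) - (x : ℝ) ^ k ≤ 2 ^ k * (r : ℝ) ^ (1 - 1 / (k : ℝ)) := by
  rcases Nat.eq_zero_or_pos r with h0 | h0
  · subst h0
    refine ⟨0, by simp [show k ≠ 0 by omega], ?_⟩
    have : (0 : ℝ) ≤ 2 ^ k * ((0 : ℕ) : ℝ) ^ (1 - 1 / (k : ℝ)) := by positivity
    simpa [show k ≠ 0 by omega] using this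
  · obtain ⟨x, hx⟩ : ∃ x, x = Nat.findGreatest (fun x => x ^ k ≤ r) r := ⟨_, rfl⟩
    have h1 : x ^ k ≤ r := by
      rw [hx]
      exact Nat.findGreatest_spec (P := fun x => x ^ k ≤ r) (m := 1) (by omega) (by rw [one_pow]; omega)
    have h2 : 1 ≤ x := by
      rw [hx]
      exact Nat.le_findGreatest (by omega) (by rw [one_pow]; omega)
    have h3 : r < (x + 1) ^ k := by
      by_contra hcon
      push Not at hcon
      have h4 : x + 1 ≤ r := (Nat.le_self_pow (by omega) _).trans hcon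
      have h5 : x + 1 ≤ Nat.findGreatest (fun x => x ^ k ≤ r) r := Nat.le_findGreatest h4 hcon
      omega
    refine ⟨x, h1, ?_⟩
    obtain ⟨j, rfl⟩ : ∃ j, k = j + 1 := ⟨k - 1, by omega⟩
    have h4 := succ_pow_le x h2 j
    have h5 : (r : ℝ) - (x : ℝ) ^ (j + 1) ≤ 2 ^ (j + 1) * (x : ℝ) ^ j := by
      have : r + x ^ j ≤ x ^ (j + 1) + 2 ^ (j + 1) * x ^ j := by omega
      have h6 : (r : ℝ) + (x : ℝ) ^ j ≤ (x : ℝ) ^ (j + 1) + 2 ^ (j + 1) * (x : ℝ) ^ j := by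
        exact_mod_cast this
      have : (0 : ℝ) ≤ (x : ℝ) ^ j := by positivity
      linarith
    refine h5.trans (mul_le_mul_of_nonneg_left ?_ (by positivity))
    have hj : (0 : ℝ) < ((j + 1 : ℕ) : ℝ) := by positivity
    have e1 : (x : ℝ) ^ j = ((x : ℝ) ^ (j + 1)) ^ (1 - 1 / ((j + 1 : ℕ) : ℝ)) := by
      rw [← Real.rpow_natCast, ← Real.rpow_natCast, ← Real.rpow_mul (Nat.cast_nonneg x)]
      congr 1
      field_simp
      push_cast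
      ring
    rw [e1]
    apply Real.rpow_le_rpow (by positivity)
    · exact_mod_cast h1
    · rw [sub_nonneg, div_le_one hj]
      exact_mod_cast (by omega : 1 ≤ j + 1)

/-- `i` greedy steps -/
theorem greedy (k : ℕ) (hk : 1 ≤ k) (n : ℕ) (hn : 1 ≤ n) (m : ℕ) (hm : m ≤ n) (i : ℕ) :
    ∃ T ≤ m, IsSumPow k i T ∧
      ((m : ℝ) - T) ≤ (2 : ℝ) ^ ((k : ℝ) * k) * (n : ℝ) ^ ((1 - 1 / (k : ℝ)) ^ i) := by
  have hkr : (1 : ℝ) ≤ k := by exact_mod_cast hk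
  have hρ0 : 0 ≤ 1 - 1 / (k : ℝ) := by
    rw [sub_nonneg, div_le_one (by linarith)]; exact hkr
  have hnr : (1 : ℝ) ≤ n := by exact_mod_cast hn
  induction i with
  | zero =>
    refine ⟨0, Nat.zero_le _, ⟨fun i => i.elim0, by simp⟩, ?_⟩
    rw [pow_zero, Real.rpow_one]
    have h1 : (m : ℝ) ≤ n := by exact_mod_cast hm
    have h2 : (1 : ℝ) ≤ (2 : ℝ) ^ ((k : ℝ) * k) := Real.one_le_rpow (by norm_num) (by positivity)
    push_cast
    nlinarith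
  | succ i ih =>
    obtain ⟨T, hT1, hT2, hT3⟩ := ih
    obtain ⟨x, hx1, hx2⟩ := greedy_step k hk (m - T)
    refine ⟨T + x ^ k, by omega, hT2.add (isSumPow_pow k x), ?_⟩
    rw [Nat.cast_sub hT1] at hx2
    push_cast
    have h1 : (m : ℝ) - (T + (x : ℝ) ^ k) = ((m : ℝ) - T) - (x : ℝ) ^ k := by ring
    rw [h1]
    refine hx2.trans ?_
    have h0 : (0 : ℝ) ≤ (m : ℝ) - T := by
      rw [sub_nonneg]; exact_mod_cast hT1
    have h2 : ((m : ℝ) - T) ^ (1 - 1 / (k : ℝ)) ≤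
        ((2 : ℝ) ^ ((k : ℝ) * k) * (n : ℝ) ^ ((1 - 1 / (k : ℝ)) ^ i)) ^ (1 - 1 / (k : ℝ)) :=
      Real.rpow_le_rpow h0 hT3 hρ0
    refine (mul_le_mul_of_nonneg_left h2 (by positivity)).trans (le_of_eq ?_)
    rw [Real.mul_rpow (by positivity) (by positivity), ← Real.rpow_mul (by norm_num),
      ← Real.rpow_mul (by positivity), ← mul_assoc, ← Real.rpow_natCast 2 k,
      ← Real.rpow_add (by norm_num), pow_succ]
    congr 2
    field_simp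
    ring

/-- `c k` greedy steps reach distance `n ^ θ`, with `c` depending on `θ` only -/
theorem greedy_far (θ : ℝ) (hθ : 0 < θ) : ∃ c : ℕ, ∀ k : ℕ, 1 ≤ k → ∃ n₀ : ℕ, ∀ n, n₀ ≤ n →
    ∀ m ≤ n, ∃ T ≤ m, IsSumPow k (c * k) T ∧ ((m : ℝ) - T) ≤ (n : ℝ) ^ θ := by
  obtain ⟨c, hc⟩ : ∃ c : ℕ, Real.exp (-(c : ℝ)) < θ / 2 := by
    obtain ⟨c, hc⟩ := exists_nat_gt (-Real.log (θ / 2))
    refine ⟨c, ?_⟩
    calc Real.exp (-(c : ℝ)) < Real.exp (Real.log (θ / 2)) := Real.exp_lt_exp.2 (by linarith)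
      _ = θ / 2 := Real.exp_log (by positivity)
  refine ⟨c, fun k hk => ?_⟩
  have hkr : (1 : ℝ) ≤ k := by exact_mod_cast hk
  have hρ0 : 0 ≤ 1 - 1 / (k : ℝ) := by
    rw [sub_nonneg, div_le_one (by linarith)]; exact hkr
  have hρ : (1 - 1 / (k : ℝ)) ^ (c * k) ≤ θ / 2 := by
    have h1 : 1 - 1 / (k : ℝ) ≤ Real.exp (-(1 / (k : ℝ))) := Real.one_sub_le_exp_neg _
    calc (1 - 1 / (k : ℝ)) ^ (c * k) ≤ (Real.exp (-(1 / (k : ℝ)))) ^ (c * k) :=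
          pow_le_pow_left₀ hρ0 h1 _
      _ = Real.exp (-(c : ℝ)) := by
          rw [← Real.exp_nat_mul]
          congr 1
          push_cast
          field_simp
      _ ≤ θ / 2 := hc.le
  have hT : Filter.Tendsto (fun n : ℕ => (n : ℝ) ^ (θ / 2)) Filter.atTop Filter.atTop :=
    (tendsto_rpow_atTop (by positivity)).comp tendsto_natCast_atTop_atTop
  obtain ⟨n₀, hn₀⟩ := Filter.eventually_atTop.1 (hT.eventually_ge_atTop ((2 : ℝ) ^ ((k : ℝ) * k)))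
  refine ⟨n₀ + 1, fun n hn m hm => ?_⟩
  obtain ⟨T, hT1, hT2, hT3⟩ := greedy k hk n (by omega) m hm (c * k)
  refine ⟨T, hT1, hT2, hT3.trans ?_⟩
  have hnr : (1 : ℝ) ≤ n := by exact_mod_cast (by omega : 1 ≤ n)
  have h1 := hn₀ n (by omega)
  have h2 : (n : ℝ) ^ ((1 - 1 / (k : ℝ)) ^ (c * k)) ≤ (n : ℝ) ^ (θ / 2) :=
    Real.rpow_le_rpow_of_exponent_le hnr hρ
  calc (2 : ℝ) ^ ((k : ℝ) * k) * (n : ℝ) ^ ((1 - 1 / (k : ℝ)) ^ (c * k)) ≤
        (n : ℝ) ^ (θ / 2) * (n : ℝ) ^ (θ / 2) := mul_le_mul h1 h2 (by positivity) (by positivity)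
    _ = (n : ℝ) ^ θ := by
        rw [← Real.rpow_add (by linarith)]
        congr 1
        ring

end Pool.Agent.H269.WG
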