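import Mathlib
import Pool.Agent.H269.WG.Basis
import Pool.Agent.H269.WG.Greedy

/-!
# Sums of `k`-th powers which are dense in one polynomially short interval
-/

set_option autoImplicit false

namespace Pool.Agent.H269.WG

open Finset Pool.Agent.W851.Had

/-- every sufficiently large integer is a sum of `m` `k`-th powers of nonnegative integers; the least such
`m` is `G(k)` -/
def AllLarge (k m : ℕ) : Prop := ∃ n₀ : ℕ, ∀ n, n₀ ≤ n → IsSumPow k m n

/-- for every large `N` some interval `[u, u + L)` contained in `[0, N ^ K]` with `L ≥ N ^ θ` contains at least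
`δ L` integers which are sums of `s` `k`-th powers -/
def LocallyDense (K : ℕ) (δ θ : ℝ) (k s : ℕ) : Prop :=
  ∃ N₀ : ℕ, ∀ N, N₀ ≤ N → ∃ u L : ℕ, u + L ≤ N ^ K ∧ (N : ℝ) ^ θ ≤ L ∧
    δ * L ≤ ({n : ℕ | u ≤ n ∧ n < u + L ∧ IsSumPow k s n}.ncard : ℝ)

open Classical in
theorem ncard_eq (k s u L : ℕ) : {n : ℕ | u ≤ n ∧ n < u + L ∧ IsSumPow k s n}.ncard =
    ((Ico u (u + L)).filter (IsSumPow k s)).card := by
  rw [← Set.ncard_coe_finset]
  congr 1
  ext n
  simp only [Set.mem_ofPred_eq, coe_filter, mem_Ico]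
  tauto

/-- dense in an interval at one scale: dense at all scales -/
theorem spread (K : ℕ) (δ θ : ℝ) (hδ : 0 < δ) (hθ : 0 < θ) : ∃ c : ℕ, ∀ k s : ℕ, 1 ≤ k →
    LocallyDense K δ θ k s → ∃ n₀ : ℕ, ∀ n, n₀ ≤ n → δ / 4 * n ≤ cnt (IsSumPow k (s + c * k)) n := by
  classical
  obtain ⟨K', hK'⟩ : ∃ K' : ℕ, K' = K + 1 := ⟨_, rfl⟩
  have hK'r : (0 : ℝ) < K' := by rw [hK']; positivity
  obtain ⟨θ', hθ'⟩ : ∃ θ' : ℝ, θ' = θ / (2 * K') := ⟨_, rfl⟩
  have hθ'0 : 0 < θ' := by rw [hθ']; positivity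
  obtain ⟨c, hc⟩ := greedy_far θ' hθ'0
  refine ⟨c, fun k s hk ⟨N₀, hN₀⟩ => ?_⟩
  obtain ⟨n₁, hn₁⟩ := hc k hk
  have hT : Filter.Tendsto (fun n : ℕ => (n : ℝ) ^ (θ / 2)) Filter.atTop Filter.atTop :=
    (tendsto_rpow_atTop (by positivity)).comp tendsto_natCast_atTop_atTop
  obtain ⟨N₁, hN₁⟩ := Filter.eventually_atTop.1 (hT.eventually_ge_atTop ((16 * (2 : ℝ) ^ K') ^ θ'))
  obtain ⟨N₂, hN₂⟩ : ∃ N₂ : ℕ, N₂ = N₀ + N₁ + 1 := ⟨_, rfl⟩
  refine ⟨n₁ + 16 * N₂ ^ K' + N₂, fun n hn => ?_⟩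
  obtain ⟨N, hN⟩ : ∃ N, N = Nat.findGreatest (fun N => 16 * N ^ K' ≤ n) n := ⟨_, rfl⟩
  have hNN₂ : N₂ ≤ N := by
    rw [hN]
    exact Nat.le_findGreatest (by omega) (by omega)
  have hNn : 16 * N ^ K' ≤ n := by
    rw [hN]
    exact Nat.findGreatest_spec (P := fun N => 16 * N ^ K' ≤ n) (m := N₂) (by omega) (by omega)
  have hNn' : n < 16 * (N + 1) ^ K' := by
    by_contra hcon
    push Not at hcon
    have h4 : N + 1 ≤ n := by
      have : N + 1 ≤ (N + 1) ^ K' := Nat.le_self_pow (by omega) _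
      omega
    have h5 : N + 1 ≤ Nat.findGreatest (fun N => 16 * N ^ K' ≤ n) n := Nat.le_findGreatest h4 hcon
    omega
  have hN1 : 1 ≤ N := by omega
  have hNr : (1 : ℝ) ≤ N := by exact_mod_cast hN1
  have hfar : (n : ℝ) ^ θ' ≤ (N : ℝ) ^ θ := by
    have h1 : (n : ℝ) ≤ 16 * (2 : ℝ) ^ K' * (N : ℝ) ^ K' := by
      have : (n : ℝ) ≤ 16 * ((N : ℝ) + 1) ^ K' := by exact_mod_cast hNn'.le
      refine this.trans ?_
      rw [mul_assoc, ← mul_pow]
      apply mul_le_mul_of_nonneg_left _ (by norm_num)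
      apply pow_le_pow_left₀ (by positivity)
      linarith
    calc (n : ℝ) ^ θ' ≤ (16 * (2 : ℝ) ^ K' * (N : ℝ) ^ K') ^ θ' :=
          Real.rpow_le_rpow (Nat.cast_nonneg _) h1 hθ'0.le
      _ = (16 * (2 : ℝ) ^ K') ^ θ' * (N : ℝ) ^ (θ / 2) := by
          rw [Real.mul_rpow (by positivity) (by positivity), ← Real.rpow_natCast (N : ℝ) K',
            ← Real.rpow_mul (by positivity)]
          congr 2
          rw [hθ']
          field_simp
      _ ≤ (N : ℝ) ^ (θ / 2) * (N : ℝ) ^ (θ / 2) :=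
          mul_le_mul_of_nonneg_right (hN₁ N (by omega)) (by positivity)
      _ = (N : ℝ) ^ θ := by
          rw [← Real.rpow_add (by linarith)]
          congr 1
          ring
  obtain ⟨u, L, huL, hL, hF⟩ := hN₀ N (by omega)
  rw [ncard_eq] at hF
  have huL' : 16 * (u + L) ≤ n := by
    have : N ^ K ≤ N ^ K' := Nat.pow_le_pow_right hN1 (by omega)
    omega
  have hL1 : 1 ≤ L := by
    have : (1 : ℝ) ≤ (N : ℝ) ^ θ := Real.one_le_rpow hNr hθ.le
    exact_mod_cast this.trans hL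
  obtain ⟨q, hq⟩ : ∃ q, q = (n - u) / (2 * L) := ⟨_, rfl⟩
  have hq1 : q * (2 * L) ≤ n - u := by rw [hq]; exact Nat.div_mul_le_self _ _
  have hq2 : n - u < (q + 1) * (2 * L) := by
    rw [hq]
    have := Nat.lt_mul_div_succ (n - u) (b := 2 * L) (by omega)
    rw [mul_comm]
    exact this
  have hq3 : 1 ≤ q := by
    rw [hq]
    exact (Nat.one_le_div_iff (by omega)).2 (by omega)
  obtain ⟨J, rfl⟩ : ∃ J, q = J + 1 := ⟨q - 1, by omega⟩
  have hJ1 : 2 * (J * L) + 2 * L ≤ n - u := by nlinarith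
  have hJ2 : n ≤ 4 * (J * L) := by
    have : (J + 1 + 1) * (2 * L) = 2 * (J * L) + 4 * L := by ring
    omega
  have hTj : ∀ j, ∃ T, j ∈ Icc 1 J → 2 * (j * L) ≤ T ∧ T ≤ 2 * (j * L) + L ∧ IsSumPow k (c * k) T := by
    intro j
    by_cases hj : j ∈ Icc 1 J
    · rw [mem_Icc] at hj
      have hjL : j * L ≤ J * L := Nat.mul_le_mul_right L hj.2
      obtain ⟨T, hT1, hT2, hT3⟩ := hn₁ n (by omega) (2 * (j * L) + L) (by omega)
      refine ⟨T, fun _ => ⟨?_, hT1, hT2⟩⟩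
      have h1 : ((2 * (j * L) + L : ℕ) : ℝ) - T ≤ L := hT3.trans (hfar.trans hL)
      have h2 : ((2 * (j * L) + L : ℕ) : ℝ) ≤ ((L + T : ℕ) : ℝ) := by push_cast at h1 ⊢; linarith
      have h3 : 2 * (j * L) + L ≤ L + T := by exact_mod_cast h2
      omega
    · exact ⟨0, fun h => absurd h hj⟩
  choose T hT' using hTj
  obtain ⟨F, hFd⟩ : ∃ F, F = (Ico u (u + L)).filter (IsSumPow k s) := ⟨_, rfl⟩
  rw [← hFd] at hF
  have hcard : J * F.card ≤ cnt (IsSumPow k (s + c * k)) n := by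
    rw [cnt_eq]
    have h1 : J * F.card = (Icc 1 J ×ˢ F).card := by
      rw [card_product, Nat.card_Icc]
      simp
    rw [h1]
    apply card_le_card_of_injOn (fun p => p.2 + T p.1)
    · rintro ⟨j, x⟩ hp
      rw [mem_coe, mem_product] at hp
      have hj := hT' j hp.1
      have hj1 := mem_Icc.1 hp.1
      have hx := hp.2
      simp only [hFd, mem_filter, mem_Ico] at hx
      simp only [coe_filter, Set.mem_ofPred_eq, mem_Icc]
      have hjL : j * L ≤ J * L := Nat.mul_le_mul_right L hj1.2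
      have hjL' : L ≤ j * L := Nat.le_mul_of_pos_left L hj1.1
      refine ⟨⟨by omega, by omega⟩, hx.2.add hj.2.2⟩
    · rintro ⟨j, x⟩ hp ⟨j', x'⟩ hp' heq
      rw [mem_coe, mem_product] at hp hp'
      have hj := hT' j hp.1
      have hj' := hT' j' hp'.1
      have hx := hp.2
      have hx' := hp'.2
      simp only [hFd, mem_filter, mem_Ico] at hx hx'
      simp only at heq
      have hjj : j = j' := by
        rcases lt_trichotomy j j' with h | h | h
        · exfalso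
          have : (j + 1) * L ≤ j' * L := Nat.mul_le_mul_right L h
          have e : (j + 1) * L = j * L + L := by ring
          omega
        · exact h
        · exfalso
          have : (j' + 1) * L ≤ j * L := Nat.mul_le_mul_right L h
          have e : (j' + 1) * L = j' * L + L := by ring
          omega
      subst hjj
      have : x = x' := by omega
      rw [this]
  have hcard' : (J : ℝ) * F.card ≤ cnt (IsSumPow k (s + c * k)) n := by exact_mod_cast hcard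
  have hJ2' : (n : ℝ) ≤ 4 * (J * L) := by exact_mod_cast hJ2
  calc δ / 4 * n ≤ δ / 4 * (4 * (J * L)) := mul_le_mul_of_nonneg_left hJ2' (by positivity)
    _ = J * (δ * L) := by ring
    _ ≤ J * F.card := mul_le_mul_of_nonneg_left hF (Nat.cast_nonneg _)
    _ ≤ _ := hcard'

/-- sums of `h` sums of `m` `k`-th powers -/
theorem isSumPow_of_SumH (k m : ℕ) : ∀ (h n : ℕ), SumH (IsSumPow k m) h n → IsSumPow k (h * m) n := by
  intro h
  induction h with
  | zero =>
    rintro n ⟨l, h1, h2, h3⟩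
    rw [List.length_eq_zero_iff] at h1
    subst h1
    rw [zero_mul]
    exact ⟨fun i => i.elim0, by simpa using h3.symm⟩
  | succ h ih =>
    rintro n ⟨l, h1, h2, h3⟩
    obtain ⟨y, l, rfl⟩ : ∃ y l', l = y :: l' := by
      cases l with
      | nil => simp at h1
      | cons y l => exact ⟨y, l, rfl⟩
    rw [List.length_cons] at h1
    have e1 := ih l.sum ⟨l, by omega, fun z hz => h2 z (List.mem_cons_of_mem _ hz), rfl⟩
    have e2 := e1.add (h2 y List.mem_cons_self)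
    rw [List.sum_cons] at h3
    have e3 : (h + 1) * m = h * m + m := by ring
    rw [e3, ← h3, add_comm y]
    exact e2

/-- **locally dense implies all large integers** -/
theorem allLarge_of_locallyDense (K : ℕ) (δ θ : ℝ) (hδ : 0 < δ) (hθ : 0 < θ) : ∃ H : ℕ, ∀ k s : ℕ, 1 ≤ k →
    LocallyDense K δ θ k s → AllLarge k (H * (s + k)) := by
  obtain ⟨c, hc⟩ := spread K δ θ hδ hθ
  obtain ⟨H, hH⟩ := uniform_order (δ / 4) (by positivity)
  refine ⟨H * (c + 1), fun k s hk hl => ?_⟩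
  have h1 : ∃ n₀ : ℕ, ∀ n, n₀ ≤ n → δ / 4 * n ≤ cnt (IsSumPow k (s + (c + 1) * k)) n := by
    obtain ⟨n₀, hn₀⟩ := hc k s hk hl
    refine ⟨n₀, fun n hn => (hn₀ n hn).trans ?_⟩
    have := cnt_mono (S := IsSumPow k (s + c * k)) (S' := IsSumPow k (s + (c + 1) * k))
      (fun m hm => hm.mono hk (by nlinarith)) n
    exact_mod_cast this
  obtain ⟨n₁, hn₁⟩ := hH _ (isSumPow_zero hk _) (by
    have : IsSumPow k 1 1 := by simpa using isSumPow_pow k 1
    exact this.mono hk (by nlinarith)) h1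
  refine ⟨n₁, fun n hn => (isSumPow_of_SumH k _ H n (hn₁ n hn)).mono hk ?_⟩
  have : s + (c + 1) * k ≤ (c + 1) * (s + k) := by nlinarith
  calc H * (s + (c + 1) * k) ≤ H * ((c + 1) * (s + k)) := Nat.mul_le_mul_left _ this
    _ = _ := by ring

/-- all large integers: locally dense -/
theorem locallyDense_of_allLarge (K : ℕ) (hK : 1 ≤ K) (δ θ : ℝ) (hδ : δ ≤ 1) (hθ : θ < 1)
    (k s : ℕ) (h : AllLarge k s) : LocallyDense K δ θ k s := by
  classical
  obtain ⟨n₀, hn₀⟩ := h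
  -- N^θ + n₀ ≤ N for large N
  have hT : Filter.Tendsto (fun n : ℕ => (n : ℝ) ^ (1 - θ)) Filter.atTop Filter.atTop :=
    (tendsto_rpow_atTop (by linarith)).comp tendsto_natCast_atTop_atTop
  obtain ⟨N₁, hN₁⟩ := Filter.eventually_atTop.1 (hT.eventually_ge_atTop 2)
  refine ⟨N₁ + 2 * n₀ + 1, fun N hN => ⟨n₀, N ^ K - n₀, ?_, ?_, ?_⟩⟩
  · have : N ≤ N ^ K := Nat.le_self_pow (by omega) _
    omega
  · have hNr : (1 : ℝ) ≤ N := by exact_mod_cast (by omega : 1 ≤ N)
    have h1 := hN₁ N (by omega)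
    have h2 : (N : ℝ) ^ (1 - θ) * (N : ℝ) ^ θ = N := by
      rw [← Real.rpow_add (by linarith)]
      simp
    have h3 : 0 ≤ (N : ℝ) ^ θ := by positivity
    have h4 : 2 * (N : ℝ) ^ θ ≤ N := by nlinarith
    have h5 : N ≤ N ^ K := Nat.le_self_pow (by omega) _
    have h6 : N - n₀ ≤ N ^ K - n₀ := by omega
    have h7 : ((N - n₀ : ℕ) : ℝ) ≤ ((N ^ K - n₀ : ℕ) : ℝ) := by exact_mod_cast h6
    refine le_trans ?_ h7
    rw [Nat.cast_sub (by omega)]
    have h8 : (2 * (n₀ : ℝ)) ≤ N := by exact_mod_cast (by omega : 2 * n₀ ≤ N)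
    linarith
  · rw [ncard_eq]
    have : (Ico n₀ (n₀ + (N ^ K - n₀))).filter (IsSumPow k s) = Ico n₀ (n₀ + (N ^ K - n₀)) := by
      apply filter_true_of_mem
      intro n hn
      exact hn₀ n (mem_Ico.1 hn).1
    rw [this, Nat.card_Ico, Nat.add_sub_cancel_left]
    have : (0 : ℝ) ≤ ((N ^ K - n₀ : ℕ) : ℝ) := Nat.cast_nonneg _
    nlinarith

end Pool.Agent.H269.WG
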