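import Mathlib
import Pool.Agent.H269.WG.Local

/-!
# An explicit local criterion: majority in one short interval
-/

set_option autoImplicit false

namespace Pool.Agent.H269.WG

open Finset

/-- `c k` greedy steps reach distance `n ^ θ` as soon as `exp (-c) < θ / 2` -/
theorem greedy_far' (θ : ℝ) (c : ℕ) (hc : Real.exp (-(c : ℝ)) < θ / 2) (k : ℕ) (hk : 1 ≤ k) :
    ∃ n₀ : ℕ, ∀ n, n₀ ≤ n → ∀ m ≤ n, ∃ T ≤ m, IsSumPow k (c * k) T ∧ ((m : ℝ) - T) ≤ (n : ℝ) ^ θ := by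
  have hθ : 0 < θ := by
    have := Real.exp_pos (-(c : ℝ))
    linarith
  have hkr : (1 : ℝ) ≤ k := by exact_mod_cast hk
  have hρ0 : 0 ≤ 1 - 1 / (k : ℝ) := by
    rw [sub_nonneg, div_le_one (by linarith)]; exact hkr
  have hρ : (1 - 1 / (k : ℝ)) ^ (c * k) ≤ θ / 2 := by
    have h1 : 1 - 1 / (k : ℝ) ≤ Real.exp (-(1 / (k : ℝ))) := Real.one_sub_le_exp_neg _
    calc (1 - 1 / (k : ℝ)) ^ (c * k) ≤ (Real.exp (-(1 / (k : ℝ)))) ^ (c * k) :=
          pow_le_pow_left₀ hρ0 h1 _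
      _ = Real.exp (-(c : ℝ)) := by
          rw [← Real.exp_nat_mul]
          congr 1
          push_cast
          field_simp
      _ ≤ θ / 2 := hc.le
  have hT : Filter.Tendsto (fun n : ℕ => (n : ℝ) ^ (θ / 2)) Filter.atTop Filter.atTop :=
    (tendsto_rpow_atTop (by positivity)).comp tendsto_natCast_atTop_atTop
  obtain ⟨n₀, hn₀⟩ := Filter.eventually_atTop.1 (hT.eventually_ge_atTop ((2 : ℝ) ^ ((k : ℝ) * k)))
  refine ⟨n₀ + 1, fun n hn m hm => ?_⟩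
  obtain ⟨T, hT1, hT2, hT3⟩ := greedy k hk n (by omega) m hm (c * k)
  refine ⟨T, hT1, hT2, hT3.trans ?_⟩
  have hnr : (1 : ℝ) ≤ n := by exact_mod_cast (by omega : 1 ≤ n)
  have h1 := hn₀ n (by omega)
  have h2 : (n : ℝ) ^ ((1 - 1 / (k : ℝ)) ^ (c * k)) ≤ (n : ℝ) ^ (θ / 2) :=
    Real.rpow_le_rpow_of_exponent_le hnr hρ
  calc (2 : ℝ) ^ ((k : ℝ) * k) * (n : ℝ) ^ ((1 - 1 / (k : ℝ)) ^ (c * k)) ≤
        (n : ℝ) ^ (θ / 2) * (n : ℝ) ^ (θ / 2) := mul_le_mul h1 h2 (by positivity) (by positivity)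
    _ = (n : ℝ) ^ θ := by
        rw [← Real.rpow_add (by linarith)]
        congr 1
        ring

/-- a set filling more than half of an interval: its sums fill an interval -/
theorem majority (A : ℕ → Prop) [DecidablePred A] (u L r : ℕ) (hL : 1 ≤ L)
    (h : L + r < 2 * ((Ico u (u + L)).filter A).card) : ∃ a b, A a ∧ A b ∧ a + b = 2 * u + L - 1 + r := by
  obtain ⟨W, hW⟩ : ∃ W, W = (Ico u (u + L)).filter A := ⟨_, rfl⟩
  rw [← hW] at h
  have hWm : ∀ w ∈ W, u ≤ w ∧ w < u + L ∧ A w := by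
    intro w hw
    rw [hW, mem_filter, mem_Ico] at hw
    exact ⟨hw.1.1, hw.1.2, hw.2⟩
  obtain ⟨V, hV⟩ : ∃ V, V = W.image (fun w => 2 * u + L - 1 + r - w) := ⟨_, rfl⟩
  have hVc : V.card = W.card := by
    rw [hV]
    apply card_image_of_injOn
    intro a ha b hb hab
    have := hWm a ha
    have := hWm b hb
    simp only at hab
    omega
  have hU : (W ∪ V).card ≤ L + r := by
    have : W ∪ V ⊆ Ico u (u + L + r) := by
      intro w hw
      rw [mem_Ico]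
      rcases mem_union.1 hw with h | h
      · have := hWm w h; omega
      · rw [hV, mem_image] at h
        obtain ⟨a, ha, rfl⟩ := h
        have := hWm a ha
        omega
    calc (W ∪ V).card ≤ (Ico u (u + L + r)).card := card_le_card this
      _ = L + r := by rw [Nat.card_Ico]; omega
  have hint : (W ∩ V).Nonempty := by
    rw [← card_pos]
    have h5 := card_union_add_card_inter W V
    omega
  obtain ⟨w, hw⟩ := hint
  rw [mem_inter, hV, mem_image] at hw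
  obtain ⟨hw1, a, ha, haw⟩ := hw
  have q1 := hWm w hw1
  have q2 := hWm a ha
  exact ⟨w, a, q1.2.2, q2.2.2, by omega⟩

/-- **Explicit local criterion.** -/
theorem explicit (K : ℕ) (hK : 1 ≤ K) (η θ : ℝ) (hη : 1 / 2 < η) (hθ : 0 < θ) (c : ℕ)
    (hc : 4 * (K : ℝ) / θ < Real.exp c) (k : ℕ) (hk : 1 ≤ k) (s : ℕ)
    (h : LocallyDense K η θ k s) : AllLarge k (2 * s + c * k) := by
  classical
  have hKr : (0 : ℝ) < K := by exact_mod_cast hK
  obtain ⟨θ', hθ'⟩ : ∃ θ' : ℝ, θ' = θ / (2 * K) := ⟨_, rfl⟩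
  have hθ'0 : 0 < θ' := by rw [hθ']; positivity
  have hc' : Real.exp (-(c : ℝ)) < θ' / 2 := by
    rw [Real.exp_neg, hθ', inv_lt_comm₀ (Real.exp_pos _) (by positivity)]
    have : (θ / (2 * (K : ℝ)) / 2)⁻¹ = 4 * (K : ℝ) / θ := by
      field_simp
      ring
    rw [this]
    exact hc
  obtain ⟨n₁, hn₁⟩ := greedy_far' θ' c hc' k hk
  obtain ⟨N₀, hN₀⟩ := h
  have hT : Filter.Tendsto (fun n : ℕ => (n : ℝ) ^ (θ / 2)) Filter.atTop Filter.atTop :=
    (tendsto_rpow_atTop (by positivity)).comp tendsto_natCast_atTop_atTop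
  obtain ⟨N₁, hN₁⟩ := Filter.eventually_atTop.1 (hT.eventually_gt_atTop ((2 * (2 : ℝ) ^ K) ^ θ' / (2 * η - 1)))
  obtain ⟨N₂, hN₂⟩ : ∃ N₂ : ℕ, N₂ = N₀ + N₁ + 1 := ⟨_, rfl⟩
  refine ⟨n₁ + 2 * N₂ ^ K + N₂, fun n hn => ?_⟩
  obtain ⟨N, hN⟩ : ∃ N, N = Nat.findGreatest (fun N => 2 * N ^ K ≤ n) n := ⟨_, rfl⟩
  have hNN₂ : N₂ ≤ N := by
    rw [hN]
    exact Nat.le_findGreatest (by omega) (by omega)
  have hNn : 2 * N ^ K ≤ n := by
    rw [hN]
    exact Nat.findGreatest_spec (P := fun N => 2 * N ^ K ≤ n) (m := N₂) (by omega) (by omega)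
  have hNn' : n < 2 * (N + 1) ^ K := by
    by_contra hcon
    push Not at hcon
    have h4 : N + 1 ≤ n := by
      have : N + 1 ≤ (N + 1) ^ K := Nat.le_self_pow (by omega) _
      omega
    have h5 : N + 1 ≤ Nat.findGreatest (fun N => 2 * N ^ K ≤ n) n := Nat.le_findGreatest h4 hcon
    omega
  have hN1 : 1 ≤ N := by omega
  have hNr : (1 : ℝ) ≤ N := by exact_mod_cast hN1
  have hη' : 0 < 2 * η - 1 := by linarith
  have hfar : (n : ℝ) ^ θ' < (2 * η - 1) * (N : ℝ) ^ θ := by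
    have h1 : (n : ℝ) ≤ 2 * (2 : ℝ) ^ K * (N : ℝ) ^ K := by
      have : (n : ℝ) ≤ 2 * ((N : ℝ) + 1) ^ K := by exact_mod_cast hNn'.le
      refine this.trans ?_
      rw [mul_assoc, ← mul_pow]
      apply mul_le_mul_of_nonneg_left _ (by norm_num)
      apply pow_le_pow_left₀ (by positivity)
      linarith
    have h2 := hN₁ N (by omega)
    rw [div_lt_iff₀ hη'] at h2
    have h3 : 0 < (N : ℝ) ^ (θ / 2) := by positivity
    calc (n : ℝ) ^ θ' ≤ (2 * (2 : ℝ) ^ K * (N : ℝ) ^ K) ^ θ' :=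
          Real.rpow_le_rpow (Nat.cast_nonneg _) h1 hθ'0.le
      _ = (2 * (2 : ℝ) ^ K) ^ θ' * (N : ℝ) ^ (θ / 2) := by
          rw [Real.mul_rpow (by positivity) (by positivity), ← Real.rpow_natCast (N : ℝ) K,
            ← Real.rpow_mul (by positivity)]
          congr 2
          rw [hθ']
          field_simp
      _ < ((N : ℝ) ^ (θ / 2) * (2 * η - 1)) * (N : ℝ) ^ (θ / 2) := mul_lt_mul_of_pos_right h2 h3
      _ = (2 * η - 1) * ((N : ℝ) ^ (θ / 2) * (N : ℝ) ^ (θ / 2)) := by ring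
      _ = (2 * η - 1) * (N : ℝ) ^ θ := by
          rw [← Real.rpow_add (by linarith)]
          congr 2
          ring
  obtain ⟨u, L, huL, hL, hF⟩ := hN₀ N (by omega)
  rw [ncard_eq] at hF
  have hL1 : 1 ≤ L := by
    have : (1 : ℝ) ≤ (N : ℝ) ^ θ := Real.one_le_rpow hNr hθ.le
    exact_mod_cast this.trans hL
  obtain ⟨v, hv⟩ : ∃ v, v = 2 * u + L - 1 := ⟨_, rfl⟩
  obtain ⟨T, hT1, hT2, hT3⟩ := hn₁ n (by omega) (n - v) (by omega)
  obtain ⟨r, hr⟩ : ∃ r, r = n - v - T := ⟨_, rfl⟩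
  have hrr : (r : ℝ) ≤ (n : ℝ) ^ θ' := by
    rw [hr, Nat.cast_sub hT1]
    exact hT3
  have hcard : L + r < 2 * ((Ico u (u + L)).filter (IsSumPow k s)).card := by
    have h1 : (r : ℝ) < (2 * η - 1) * L :=
      lt_of_le_of_lt hrr (lt_of_lt_of_le hfar (mul_le_mul_of_nonneg_left hL hη'.le))
    have h2 : ((L + r : ℕ) : ℝ) < ((2 * ((Ico u (u + L)).filter (IsSumPow k s)).card : ℕ) : ℝ) := by
      push_cast
      nlinarith
    exact_mod_cast h2
  obtain ⟨a, b, ha, hb, hab⟩ := majority (IsSumPow k s) u L r hL1 hcard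
  have h1 := (ha.add hb).add hT2
  have h2 : a + b + T = n := by omega
  rw [h2, ← two_mul] at h1
  exact h1

end Pool.Agent.H269.WG
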